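import Pool.Agent.H903RN.Stmts

/-!
Task Offset of project H903-RN.
-/

set_option autoImplicit false

open Metric MeasureTheory Filter Topology

namespace Pool.Agent.H023R3.RN

open Pool.Agent.H903RN

theorem norm_ex (θ : ℝ) : ‖ex θ‖ = 1 := by
  unfold ex; exact Complex.norm_exp_ofReal_mul_I θ

theorem inner_e0_e0 : inner ℂ e0 e0 = (1 : ℂ) := by
  unfold e0
  rw [inner_self_eq_norm_sq_to_K]
  simp

theorem inner_self_one {v : E} (h : ‖v‖ = 1) : inner ℂ v v = (1 : ℂ) := by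
  rw [inner_self_eq_norm_sq_to_K, h]; simp

theorem norm_one_of_inner {v : E} (h : inner ℂ v v = (1 : ℂ)) : ‖v‖ = 1 := by
  rw [inner_self_eq_norm_sq_to_K] at h
  have h2 : ((‖v‖ ^ 2 : ℝ) : ℂ) = ((1 : ℝ) : ℂ) := by push_cast; simpa using h
  have h3 : ‖v‖ ^ 2 = 1 := Complex.ofReal_injective h2
  have h4 : 0 ≤ ‖v‖ := norm_nonneg v
  nlinarith [sq_nonneg (‖v‖ - 1)]

theorem inner_swap0 {a b : E} (h : inner ℂ a b = (0 : ℂ)) : inner ℂ b a = (0 : ℂ) := by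
  rw [← inner_conj_symm, h]; simp

theorem conj_mul_one {ζ : ℂ} (h : ‖ζ‖ = 1) : (starRingEnd ℂ) ζ * ζ = 1 := by
  rw [mul_comm, Complex.mul_conj, Complex.normSq_eq_norm_sq, h]; simp

/-- inner product of two disc points over the same base point -/
theorem inner_disc_disc {Φ Φ' : ℂ → E} {ζ : ℂ} (h : ‖ζ‖ = 1)
    (h1 : inner ℂ e0 (Φ ζ) = 0) (h2 : inner ℂ e0 (Φ' ζ) = 0) :
    inner ℂ (disc Φ ζ) (disc Φ' ζ) = 9/25 + 16/25 * inner ℂ (Φ ζ) (Φ' ζ) := by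
  unfold disc
  have h1' := inner_swap0 h1
  simp only [inner_add_left, inner_add_right, inner_smul_left, inner_smul_right, h2, h1',
    inner_e0_e0, map_mul, map_div₀, mul_zero, add_zero, zero_add, mul_one]
  have h3 := conj_mul_one h
  have e1 : (starRingEnd ℂ) 3 = 3 := by simpa using Complex.conj_ofReal 3
  have e2 : (starRingEnd ℂ) 5 = 5 := by simpa using Complex.conj_ofReal 5
  have e3 : (starRingEnd ℂ) 4 = 4 := by simpa using Complex.conj_ofReal 4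
  rw [e1, e2, e3]
  linear_combination (9/25 : ℂ) * h3

theorem sqrt_sq_one (t : ℝ) (ht1 : t < 1) (ht0 : 0 < t) :
    Real.sqrt (1 - t^2) * Real.sqrt (1 - t^2) = 1 - t^2 :=
  Real.mul_self_sqrt (by nlinarith)

theorem inner_newΦ_self {Φ Ψ : ℂ → E} (hG : Good Φ Ψ) {t : ℝ} (ht0 : 0 < t) (ht1 : t < 1)
    (n : ℕ) {ζ : ℂ} (h : ‖ζ‖ = 1) : inner ℂ (newΦ t n Φ Ψ ζ) (newΦ t n Φ Ψ ζ) = (1 : ℂ) := by
  unfold newΦ
  have o := hG.orth ζ h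
  have o' := inner_swap0 o
  have a1 := inner_self_one (hG.nΦ ζ h)
  have a2 := inner_self_one (hG.nΨ ζ h)
  simp only [inner_add_left, inner_add_right, inner_smul_left, inner_smul_right, o, o', a1, a2,
    map_mul, map_pow, Complex.conj_ofReal, mul_zero, add_zero, zero_add, mul_one]
  have h3 := conj_mul_one h
  have h4 : (starRingEnd ℂ) ζ ^ n * ζ ^ n = 1 := by rw [← mul_pow, h3, one_pow]
  have h5 : ((Real.sqrt (1 - t^2) : ℝ) : ℂ) * ((Real.sqrt (1 - t^2) : ℝ) : ℂ) = 1 - (t:ℂ)^2 := by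
    rw [← Complex.ofReal_mul, sqrt_sq_one t ht1 ht0]; push_cast; ring
  linear_combination h5 + (t : ℂ)^2 * h4

theorem inner_Φ_newΦ {Φ Ψ : ℂ → E} (hG : Good Φ Ψ) (t : ℝ)
    (n : ℕ) {ζ : ℂ} (h : ‖ζ‖ = 1) :
    inner ℂ (Φ ζ) (newΦ t n Φ Ψ ζ) = ((Real.sqrt (1 - t^2) : ℝ) : ℂ) := by
  unfold newΦ
  have o := hG.orth ζ h
  have a1 := inner_self_one (hG.nΦ ζ h)
  simp only [inner_add_right, inner_smul_right, o, a1, mul_zero, add_zero, mul_one]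

theorem inner_e0_newΦ {Φ Ψ : ℂ → E} (hG : Good Φ Ψ) (t : ℝ) (n : ℕ) (ζ : ℂ) :
    inner ℂ e0 (newΦ t n Φ Ψ ζ) = (0 : ℂ) := by
  unfold newΦ
  simp only [inner_add_right, inner_smul_right, hG.eΦ, hG.eΨ, mul_zero, add_zero]

theorem norm_disc {Φ Ψ : ℂ → E} (hG : Good Φ Ψ) {ζ : ℂ} (h : ‖ζ‖ = 1) : ‖disc Φ ζ‖ = 1 := by
  apply norm_one_of_inner
  rw [inner_disc_disc h (hG.eΦ ζ) (hG.eΦ ζ), inner_self_one (hG.nΦ ζ h)]
  norm_num

theorem norm_eta {Φ Ψ : ℂ → E} (hG : Good Φ Ψ) {t : ℝ} (ht0 : 0 < t) (ht1 : t < 1)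
    (n : ℕ) (θ : ℝ) : ‖eta Φ Ψ t n θ‖ = 1 := by
  unfold eta
  apply norm_one_of_inner
  rw [inner_disc_disc (norm_ex θ) (inner_e0_newΦ hG t n _) (inner_e0_newΦ hG t n _),
    inner_newΦ_self hG ht0 ht1 n (norm_ex θ)]
  norm_num

theorem inner_u_eta {Φ Ψ : ℂ → E} (hG : Good Φ Ψ) (t : ℝ) (n : ℕ) (θ : ℝ) :
    inner ℂ (disc Φ (ex θ)) (eta Φ Ψ t n θ) = ((rr t : ℝ) : ℂ) := by
  unfold eta
  rw [inner_disc_disc (norm_ex θ) (hG.eΦ _) (inner_e0_newΦ hG t n _),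
    inner_Φ_newΦ hG t n (norm_ex θ)]
  unfold rr
  push_cast
  ring

theorem rr_bounds {t : ℝ} (ht0 : 0 < t) (ht1 : t < 1) : |1 - rr t| ≤ t^2 := by
  unfold rr
  have h1 : Real.sqrt (1 - t^2) ≤ 1 := by
    rw [Real.sqrt_le_left (by norm_num)]; nlinarith [sq_nonneg t]
  have h2 : 1 - t^2 ≤ Real.sqrt (1 - t^2) := by
    apply Real.le_sqrt_of_sq_le
    have h0 : 0 ≤ 1 - t^2 := by nlinarith
    nlinarith [mul_nonneg h0 (sq_nonneg t)]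
  rw [abs_le]
  constructor <;> nlinarith [sq_nonneg t]

theorem offset : TaskCore → TaskInj → TaskGeom → TaskOffset := by
  intro hCore hInj hGeom Φ Ψ hG l κ hL
  obtain ⟨C1, hC1, n1, hcore⟩ := hCore Φ Ψ hG l κ hL
  obtain ⟨C2, hC2, hinj⟩ := hInj Φ Ψ hG
  obtain ⟨hg1, -, hg3, -⟩ := hGeom
  have hl : 0 < l := hL.1
  obtain ⟨n2, hn2⟩ := exists_nat_gt l
  refine ⟨C1 * (6 * C2 + 36 * C2^2), by positivity, max (max n1 n2) 1, ?_⟩
  intro n hn θ' hθ' θ hθ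
  have hn1 : n1 ≤ n := le_trans (le_trans (le_max_left _ _) (le_max_left _ _)) hn
  have hnn2 : n2 ≤ n := le_trans (le_trans (le_max_right _ _) (le_max_left _ _)) hn
  have hn0 : 1 ≤ n := le_trans (le_max_right _ _) hn
  have hnpos : (0:ℝ) < n := by exact_mod_cast hn0
  have hln : l < n := lt_of_lt_of_le hn2 (by exact_mod_cast hnn2)
  have ht0 : 0 < tt l n := by unfold tt; exact Real.sqrt_pos.mpr (div_pos hl hnpos)
  have ht1 : tt l n < 1 := by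
    unfold tt
    rw [Real.sqrt_lt' one_pos]
    rw [one_pow, div_lt_one hnpos]; exact hln
  set t := tt l n with ht
  obtain ⟨-, hc2⟩ := hcore n hn1 θ' θ
  set z := eta Φ Ψ t n θ with hz
  have hznorm : ‖z‖ = 1 := norm_eta hG ht0 ht1 n θ
  obtain ⟨hQ1, hQ2, -⟩ := hg3 Φ Ψ hG t ht0 ht1 n θ' z hznorm.le
  set Qv := Q Φ t θ' z with hQv
  have h1 := hg1 (disc Φ (ex θ')) (disc Φ (ex θ)) z (norm_disc hG (norm_ex θ'))
    (norm_disc hG (norm_ex θ)) hznorm.le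
  have h2 : ‖1 - inner ℂ (disc Φ (ex θ)) z‖ ≤ t^2 := by
    rw [hz, inner_u_eta hG t n θ]
    rw [← Complex.ofReal_one, ← Complex.ofReal_sub, Complex.norm_real]
    exact rr_bounds ht0 ht1
  have ht2 : 0 < t^2 := by positivity
  have h3 : ‖1 - inner ℂ (disc Φ (ex θ')) z‖ ≤ Qv * t^2 := by
    rwa [div_le_iff₀ ht2] at hQ2
  have h4 := hinj θ' hθ' θ hθ
  have h5 : |θ - θ'| ≤ 6 * C2 * Qv * t^2 := by
    have : ‖1 - inner ℂ (disc Φ (ex θ')) (disc Φ (ex θ))‖ ≤ 6 * Qv * t^2 := by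
      nlinarith
    calc |θ - θ'| ≤ C2 * ‖1 - inner ℂ (disc Φ (ex θ')) (disc Φ (ex θ))‖ := h4
      _ ≤ C2 * (6 * Qv * t^2) := by gcongr
      _ = 6 * C2 * Qv * t^2 := by ring
  have hx0 : 0 ≤ |θ - θ'| := abs_nonneg _
  have hQ0 : 0 < Qv := lt_of_lt_of_le one_pos hQ1
  have h6 : |θ - θ'| / t ≤ 6 * C2 * Qv^2 * t := by
    rw [div_le_iff₀ ht0]
    have : 6 * C2 * Qv * t^2 ≤ 6 * C2 * Qv^2 * t * t := by
      have : Qv ≤ Qv^2 := by nlinarith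
      nlinarith [mul_le_mul_of_nonneg_left this (by positivity : (0:ℝ) ≤ 6 * C2 * t^2)]
    linarith
  have h7 : |θ - θ'|^2 / t^2 ≤ 36 * C2^2 * Qv^2 * t := by
    rw [div_le_iff₀ ht2]
    have : |θ - θ'|^2 ≤ (6 * C2 * Qv * t^2)^2 := by gcongr
    have h8 : (6 * C2 * Qv * t^2)^2 = 36 * C2^2 * Qv^2 * t^3 * t := by ring
    have h9 : 36 * C2^2 * Qv^2 * t^3 * t ≤ 36 * C2^2 * Qv^2 * t^3 * 1 := by gcongr
    calc |θ - θ'|^2 ≤ _ := this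
      _ ≤ 36 * C2^2 * Qv^2 * t^3 * 1 := by rw [h8]; exact h9
      _ = 36 * C2 ^ 2 * Qv ^ 2 * t * t ^ 2 := by ring
  have h10 : ‖G Φ Ψ t n θ' z‖ ≤ (Qv⁻¹)^4 * (C1 * (6 * C2 * Qv^2 * t + 36 * C2^2 * Qv^2 * t)) := by
    unfold G
    rw [norm_mul, norm_pow, norm_inv]
    have e1 : ‖1 + (1 - inner ℂ (disc Φ (ex θ')) z) / (t : ℂ)^2‖ = Qv := rfl
    rw [e1]
    apply mul_le_mul_of_nonneg_left _ (by positivity)
    calc _ ≤ C1 * (|θ - θ'| / t + |θ - θ'|^2 / t^2) := hc2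
      _ ≤ _ := by gcongr
  calc ‖G Φ Ψ t n θ' z‖ ≤ _ := h10
    _ = C1 * (6 * C2 + 36 * C2^2) * t / Qv^2 := by
      field_simp

end Pool.Agent.H023R3.RN
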